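import Mathlib

/-!
# The mean-split quantization rate can be slower than `2 ^ (-n)` under finite variance
-/

open MeasureTheory ProbabilityTheory Filter Topology Set
open scoped ENNReal

namespace Pool.Agent.Results.MP_a33f4b_pr.SlowRate

/-- The mean-split algorithm `T(μ, n)`. -/
noncomputable def meanSplit : ℕ → Measure ℝ → Measure ℝ
  | 0, μ => Measure.dirac (∫ x, x ∂μ)
  | n + 1, μ =>
      μ (Iio (∫ x, x ∂μ)) • meanSplit n (cond μ (Iio (∫ x, x ∂μ))) +
      μ (Ici (∫ x, x ∂μ)) • meanSplit n (cond μ (Ici (∫ x, x ∂μ)))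

/-- The Wasserstein-1 distance on the line, `∫ |F_μ(t) - F_ν(t)| dt`. -/
noncomputable def W1 (μ ν : Measure ℝ) : ℝ≥0∞ :=
  ∫⁻ t, ENNReal.ofReal |μ.real (Iic t) - ν.real (Iic t)|

/-! ### General facts on the algorithm -/

theorem meanSplit_supp (a b : ℝ) (n : ℕ) : ∀ μ : Measure ℝ, IsProbabilityMeasure μ →
    (∀ᵐ x ∂μ, x ∈ Icc a b) →
    IsProbabilityMeasure (meanSplit n μ) ∧ ∀ᵐ x ∂(meanSplit n μ), x ∈ Icc a b := by
  induction n with
  | zero =>
    intro μ hμ h
    have hint : Integrable (fun x : ℝ => x) μ := by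
      refine Integrable.of_bound (C := max |a| |b|) measurable_id.aestronglyMeasurable ?_
      filter_upwards [h] with x hx
      rw [Real.norm_eq_abs]
      exact abs_le_max_abs_abs hx.1 hx.2
    refine ⟨by unfold meanSplit; infer_instance, ?_⟩
    unfold meanSplit
    refine (ae_dirac_iff measurableSet_Icc).2 ⟨?_, ?_⟩
    · have := integral_mono_ae (integrable_const a) hint (h.mono fun x hx => hx.1)
      simpa using this
    · have := integral_mono_ae hint (integrable_const b) (h.mono fun x hx => hx.2)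
      simpa using this
  | succ n ih =>
    intro μ hμ h
    unfold meanSplit
    set m := ∫ x, x ∂μ
    have hpart : ∀ s : Set ℝ, MeasurableSet s →
        (μ s • meanSplit n (cond μ s)) univ = μ s ∧
        ∀ᵐ x ∂(μ s • meanSplit n (cond μ s)), x ∈ Icc a b := by
      intro s hs
      by_cases h0 : μ s = 0
      · rw [h0, zero_smul]
        simp
      · have hp : IsProbabilityMeasure (cond μ s) := cond_isProbabilityMeasure h0
        have h1 : ∀ᵐ x ∂(cond μ s), x ∈ Icc a b :=
          cond_absolutelyContinuous.ae_le h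
        obtain ⟨h2, h3⟩ := ih _ hp h1
        refine ⟨?_, Measure.ae_smul_measure h3 _⟩
        rw [Measure.smul_apply, measure_univ, smul_eq_mul, mul_one]
    obtain ⟨h1, h2⟩ := hpart _ (measurableSet_Iio (a := m))
    obtain ⟨h3, h4⟩ := hpart _ (measurableSet_Ici (a := m))
    refine ⟨⟨?_⟩, ae_add_measure_iff.2 ⟨h2, h4⟩⟩
    rw [Measure.add_apply, h1, h3, ← measure_union _ measurableSet_Ici, Iio_union_Ici,
      measure_univ]
    rw [Set.disjoint_left]
    intro x hx hx2
    exact (not_le.2 (mem_Iio.1 hx)) (mem_Ici.1 hx2)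

/-! ### The blocks: uniform laws on `[(3/2)^k, (21/20) (3/2)^k]` -/

/-- the uniform law on `[(3/2)^k, (21/20) (3/2)^k]` -/
noncomputable def u (k : ℕ) : Measure ℝ :=
  ENNReal.ofReal (20 / (3 / 2 : ℝ) ^ k) •
    volume.restrict (Icc ((3 / 2 : ℝ) ^ k) (21 / 20 * (3 / 2 : ℝ) ^ k))

theorem tau_pos (k : ℕ) : (0 : ℝ) < (3 / 2 : ℝ) ^ k := by positivity

instance u_prob (k : ℕ) : IsProbabilityMeasure (u k) := by
  constructor
  unfold u
  rw [Measure.smul_apply, Measure.restrict_apply_univ, Real.volume_Icc, smul_eq_mul,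
    ← ENNReal.ofReal_mul (by positivity), ← ENNReal.ofReal_one]
  congr 1
  have := tau_pos k
  field_simp
  ring

theorem u_supp (k : ℕ) : ∀ᵐ x ∂(u k), x ∈ Icc ((3 / 2 : ℝ) ^ k) (21 / 20 * (3 / 2 : ℝ) ^ k) :=
  Measure.ae_smul_measure (ae_restrict_mem measurableSet_Icc) _

theorem u_integrable (k : ℕ) (f : ℝ → ℝ) (hf : Continuous f) : Integrable f (u k) := by
  unfold u
  exact (hf.continuousOn.integrableOn_compact isCompact_Icc).smul_measure (by simp)

theorem u_mean (k : ℕ) : ∫ x, x ∂(u k) = 41 / 40 * (3 / 2 : ℝ) ^ k := by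
  have hp := tau_pos k
  unfold u
  rw [integral_smul_measure, integral_Icc_eq_integral_Ioc,
    ← intervalIntegral.integral_of_le (by linarith), integral_id,
    ENNReal.toReal_ofReal (by positivity), smul_eq_mul]
  field_simp
  ring

theorem u_restrict_of_subset (k : ℕ) (s : Set ℝ) (hs : MeasurableSet s)
    (h : Icc ((3 / 2 : ℝ) ^ k) (21 / 20 * (3 / 2 : ℝ) ^ k) ⊆ s) : (u k).restrict s = u k := by
  unfold u
  rw [Measure.restrict_smul, Measure.restrict_restrict hs, inter_eq_self_of_subset_right h]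

theorem u_restrict_of_disjoint (k : ℕ) (s : Set ℝ) (hs : MeasurableSet s)
    (h : ∀ x ∈ s, x ∉ Icc ((3 / 2 : ℝ) ^ k) (21 / 20 * (3 / 2 : ℝ) ^ k)) :
    (u k).restrict s = 0 := by
  unfold u
  rw [Measure.restrict_smul, Measure.restrict_restrict hs]
  have : s ∩ Icc ((3 / 2 : ℝ) ^ k) (21 / 20 * (3 / 2 : ℝ) ^ k) = ∅ := by
    ext x
    simp only [mem_inter_iff, mem_empty_iff_false, iff_false, not_and]
    exact h x
  rw [this]
  simp

/-! ### The mixtures -/

/-- weights -/
noncomputable def wt (k : ℕ) : ℝ := 5 / 8 * (3 / 8 : ℝ) ^ k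

theorem wt_pos (k : ℕ) : 0 < wt k := by unfold wt; positivity

theorem wt_sum : HasSum wt 1 := by
  unfold wt
  have h := (hasSum_geometric_of_lt_one (r := (3 / 8 : ℝ)) (by norm_num) (by norm_num)).mul_left
    (5 / 8 : ℝ)
  rwa [show (5 / 8 : ℝ) * (1 - 3 / 8)⁻¹ = 1 by norm_num] at h

/-- the law of `(3/2)^j X` -/
noncomputable def nu (j : ℕ) : Measure ℝ :=
  Measure.sum fun k : ℕ => ENNReal.ofReal (wt k) • u (k + j)

instance nu_prob (j : ℕ) : IsProbabilityMeasure (nu j) := by
  constructor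
  unfold nu
  rw [Measure.sum_apply _ MeasurableSet.univ]
  simp only [Measure.smul_apply, measure_univ, smul_eq_mul, mul_one]
  rw [← ENNReal.ofReal_tsum_of_nonneg (fun k => (wt_pos k).le) wt_sum.summable, wt_sum.tsum_eq]
  simp

theorem nu_ae (j : ℕ) (p : ℝ → Prop) (h : ∀ k, ∀ᵐ x ∂(u (k + j)), p x) : ∀ᵐ x ∂(nu j), p x := by
  unfold nu
  rw [Measure.ae_sum_iff]
  exact fun k => Measure.ae_smul_measure (h k) _

theorem summable_one : Summable (fun k : ℕ => wt k * (21 / 20 * (3 / 2 : ℝ) ^ k)) := by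
  have h := (summable_geometric_of_lt_one (r := (9 / 16 : ℝ)) (by norm_num)
    (by norm_num)).mul_left (5 / 8 * (21 / 20) : ℝ)
  refine h.congr fun k => ?_
  unfold wt
  have : (9 / 16 : ℝ) ^ k = (3 / 8 : ℝ) ^ k * (3 / 2 : ℝ) ^ k := by
    rw [← mul_pow]; norm_num
  rw [this]
  ring

theorem nu_integrable (j : ℕ) : Integrable (fun x : ℝ => x) (nu j) := by
  unfold nu
  refine integrable_sum_measure (fun k => (u_integrable _ _ continuous_id).smul_measure (by simp))
    ?_
  have h : ∀ k, ∫ x, ‖x‖ ∂(ENNReal.ofReal (wt k) • u (k + j)) ≤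
      (3 / 2 : ℝ) ^ j * (wt k * (21 / 20 * (3 / 2 : ℝ) ^ k)) := by
    intro k
    rw [integral_smul_measure, ENNReal.toReal_ofReal (wt_pos k).le, smul_eq_mul]
    have h1 : ∫ x, ‖x‖ ∂(u (k + j)) ≤ 21 / 20 * (3 / 2 : ℝ) ^ (k + j) := by
      have h2 := integral_mono_ae (μ := u (k + j)) (u_integrable _ _ continuous_norm)
        (integrable_const (21 / 20 * (3 / 2 : ℝ) ^ (k + j))) ((u_supp (k + j)).mono ?_)
      · simpa using h2
      · intro x hx
        have : 0 ≤ x := le_trans (tau_pos _).le hx.1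
        simp only [Real.norm_eq_abs, abs_of_nonneg this]
        exact hx.2
    calc wt k * ∫ x, ‖x‖ ∂(u (k + j)) ≤ wt k * (21 / 20 * (3 / 2 : ℝ) ^ (k + j)) :=
          mul_le_mul_of_nonneg_left h1 (wt_pos k).le
      _ = (3 / 2 : ℝ) ^ j * (wt k * (21 / 20 * (3 / 2 : ℝ) ^ k)) := by rw [pow_add]; ring
  exact Summable.of_nonneg_of_le (fun k => integral_nonneg fun x => norm_nonneg _) h
    (summable_one.mul_left _)

theorem nu_mean (j : ℕ) : ∫ x, x ∂(nu j) = 41 / 28 * (3 / 2 : ℝ) ^ j := by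
  have h := hasSum_integral_measure (f := fun x : ℝ => x) (nu_integrable j)
  have h2 : HasSum (fun k : ℕ => ∫ x, x ∂(ENNReal.ofReal (wt k) • u (k + j)))
      (41 / 28 * (3 / 2 : ℝ) ^ j) := by
    have h3 := (hasSum_geometric_of_lt_one (r := (9 / 16 : ℝ)) (by norm_num)
      (by norm_num)).mul_left (5 / 8 * (41 / 40) * (3 / 2 : ℝ) ^ j)
    have h4 : (fun k : ℕ => ∫ x, x ∂(ENNReal.ofReal (wt k) • u (k + j))) =
        fun k : ℕ => (5 / 8 * (41 / 40) * (3 / 2 : ℝ) ^ j) * (9 / 16 : ℝ) ^ k := by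
      funext k
      rw [integral_smul_measure, ENNReal.toReal_ofReal (wt_pos k).le, smul_eq_mul, u_mean]
      unfold wt
      have : (9 / 16 : ℝ) ^ k = (3 / 8 : ℝ) ^ k * (3 / 2 : ℝ) ^ k := by
        rw [← mul_pow]; norm_num
      rw [this, pow_add]
      ring
    rw [h4]
    have h5 : (5 / 8 * (41 / 40) * (3 / 2 : ℝ) ^ j) * (1 - 9 / 16)⁻¹ =
        41 / 28 * (3 / 2 : ℝ) ^ j := by
      rw [show (1 - 9 / 16 : ℝ)⁻¹ = 16 / 7 by norm_num]
      ring
    rwa [h5] at h3
  exact h.unique h2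

theorem nu_second (j : ℕ) : Integrable (fun x : ℝ => x ^ 2) (nu j) := by
  unfold nu
  refine integrable_sum_measure (fun k => (u_integrable _ _ (by fun_prop)).smul_measure (by simp))
    ?_
  have h : ∀ k, ∫ x, ‖x ^ 2‖ ∂(ENNReal.ofReal (wt k) • u (k + j)) ≤
      ((21 / 20 : ℝ) * (3 / 2 : ℝ) ^ j) ^ 2 * (5 / 8) * (27 / 32 : ℝ) ^ k := by
    intro k
    rw [integral_smul_measure, ENNReal.toReal_ofReal (wt_pos k).le, smul_eq_mul]
    have h1 : ∫ x, ‖x ^ 2‖ ∂(u (k + j)) ≤ (21 / 20 * (3 / 2 : ℝ) ^ (k + j)) ^ 2 := by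
      have h2 := integral_mono_ae (μ := u (k + j)) (u_integrable _ (fun x => ‖x ^ 2‖) (by fun_prop))
        (integrable_const ((21 / 20 * (3 / 2 : ℝ) ^ (k + j)) ^ 2)) ((u_supp (k + j)).mono ?_)
      · simpa using h2
      · intro x hx
        have : 0 ≤ x := le_trans (tau_pos _).le hx.1
        simp only [norm_pow, Real.norm_eq_abs, abs_of_nonneg this]
        exact pow_le_pow_left₀ this hx.2 2
    calc wt k * ∫ x, ‖x ^ 2‖ ∂(u (k + j)) ≤ wt k * (21 / 20 * (3 / 2 : ℝ) ^ (k + j)) ^ 2 :=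
          mul_le_mul_of_nonneg_left h1 (wt_pos k).le
      _ = ((21 / 20 : ℝ) * (3 / 2 : ℝ) ^ j) ^ 2 * (5 / 8) * (27 / 32 : ℝ) ^ k := by
          unfold wt
          have : (27 / 32 : ℝ) ^ k = (3 / 8 : ℝ) ^ k * ((3 / 2 : ℝ) ^ k * (3 / 2 : ℝ) ^ k) := by
            rw [← mul_pow, ← mul_pow]; norm_num
          rw [this, pow_add]
          ring
  exact Summable.of_nonneg_of_le (fun k => integral_nonneg fun x => norm_nonneg _) h
    ((summable_geometric_of_lt_one (by norm_num) (by norm_num)).mul_left _)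

theorem nu_ac (j : ℕ) : nu j ≪ volume := by
  unfold nu
  refine Measure.absolutelyContinuous_sum_left fun k => ?_
  unfold u
  exact (Measure.smul_absolutelyContinuous.trans Measure.smul_absolutelyContinuous).trans
    Measure.restrict_le_self.absolutelyContinuous

/-! ### The splitting step -/

theorem nu_restrict_low (j : ℕ) : (nu j).restrict (Iio (41 / 28 * (3 / 2 : ℝ) ^ j)) =
    ENNReal.ofReal (5 / 8) • u j := by
  have hj := tau_pos j
  unfold nu
  rw [Measure.restrict_sum _ measurableSet_Iio]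
  have h : ∀ k : ℕ, (ENNReal.ofReal (wt k) • u (k + j)).restrict
      (Iio (41 / 28 * (3 / 2 : ℝ) ^ j)) = if k = 0 then ENNReal.ofReal (5 / 8) • u j else 0 := by
    intro k
    rw [Measure.restrict_smul]
    by_cases hk : k = 0
    · subst hk
      rw [if_pos rfl, u_restrict_of_subset _ _ measurableSet_Iio, zero_add]
      · simp [wt]
      · intro x hx
        rw [zero_add] at hx
        have := hx.2
        rw [mem_Iio]
        nlinarith
    · rw [if_neg hk, u_restrict_of_disjoint _ _ measurableSet_Iio, smul_zero]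
      intro x hx hx2
      have h1 := hx2.1
      have h2 : (3 / 2 : ℝ) ^ (1 + j) ≤ (3 / 2 : ℝ) ^ (k + j) :=
        pow_le_pow_right₀ (by norm_num) (by omega)
      rw [pow_add, pow_one] at h2
      rw [mem_Iio] at hx
      nlinarith
  simp only [h]
  ext s hs
  rw [Measure.sum_apply _ hs, tsum_eq_single 0]
  · simp
  · intro k hk
    simp [hk]

theorem nu_restrict_high (j : ℕ) : (nu j).restrict (Ici (41 / 28 * (3 / 2 : ℝ) ^ j)) =
    ENNReal.ofReal (3 / 8) • nu (j + 1) := by
  have hj := tau_pos j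
  unfold nu
  rw [Measure.restrict_sum _ measurableSet_Ici]
  have h0 : (ENNReal.ofReal (wt 0) • u (0 + j)).restrict
      (Ici (41 / 28 * (3 / 2 : ℝ) ^ j)) = 0 := by
    rw [Measure.restrict_smul, u_restrict_of_disjoint _ _ measurableSet_Ici, smul_zero]
    intro x hx hx2
    rw [zero_add] at hx2
    have := hx2.2
    rw [mem_Ici] at hx
    nlinarith
  have h : ∀ k : ℕ, (ENNReal.ofReal (wt (k + 1)) • u (k + 1 + j)).restrict
      (Ici (41 / 28 * (3 / 2 : ℝ) ^ j)) =
      ENNReal.ofReal (3 / 8) • (ENNReal.ofReal (wt k) • u (k + (j + 1))) := by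
    intro k
    rw [Measure.restrict_smul, u_restrict_of_subset _ _ measurableSet_Ici]
    · rw [smul_smul, ← ENNReal.ofReal_mul (by norm_num)]
      have h1 : wt (k + 1) = 3 / 8 * wt k := by unfold wt; ring
      have h2 : k + 1 + j = k + (j + 1) := by ring
      rw [h1, h2]
    · intro x hx
      have h1 := hx.1
      have h2 : (3 / 2 : ℝ) ^ (1 + j) ≤ (3 / 2 : ℝ) ^ (k + 1 + j) :=
        pow_le_pow_right₀ (by norm_num) (by omega)
      rw [pow_add, pow_one] at h2
      rw [mem_Ici]
      nlinarith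
  ext s hs
  rw [Measure.sum_apply _ hs, tsum_eq_zero_add' ENNReal.summable, h0, Measure.smul_apply,
    Measure.sum_apply _ hs]
  simp only [h]
  simp only [Measure.coe_zero, Pi.zero_apply, zero_add, Measure.smul_apply, smul_eq_mul,
    ENNReal.tsum_mul_left]

theorem cond_low (j : ℕ) : cond (nu j) (Iio (∫ x, x ∂(nu j))) = u j := by
  rw [nu_mean, ProbabilityTheory.cond, nu_restrict_low]
  have h : nu j (Iio (41 / 28 * (3 / 2 : ℝ) ^ j)) = ENNReal.ofReal (5 / 8) := by
    rw [← Measure.restrict_apply_univ, nu_restrict_low, Measure.smul_apply, measure_univ,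
      smul_eq_mul, mul_one]
  rw [h, smul_smul, ENNReal.inv_mul_cancel (by simp) (by simp), one_smul]

theorem cond_high (j : ℕ) : cond (nu j) (Ici (∫ x, x ∂(nu j))) = nu (j + 1) := by
  rw [nu_mean, ProbabilityTheory.cond, nu_restrict_high]
  have h : nu j (Ici (41 / 28 * (3 / 2 : ℝ) ^ j)) = ENNReal.ofReal (3 / 8) := by
    rw [← Measure.restrict_apply_univ, nu_restrict_high, Measure.smul_apply, measure_univ,
      smul_eq_mul, mul_one]
  rw [h, smul_smul, ENNReal.inv_mul_cancel (by simp) (by simp), one_smul]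

theorem meanSplit_nu_succ (n j : ℕ) : meanSplit (n + 1) (nu j) =
    nu j (Iio (∫ x, x ∂(nu j))) • meanSplit n (u j) +
    nu j (Ici (∫ x, x ∂(nu j))) • meanSplit n (nu (j + 1)) := by
  rw [meanSplit, cond_low, cond_high]

theorem meanSplit_nu (n : ℕ) : ∀ j : ℕ, IsProbabilityMeasure (meanSplit n (nu j)) ∧
    ∀ᵐ x ∂(meanSplit n (nu j)), x ∈ Icc 0 (41 / 28 * (3 / 2 : ℝ) ^ (j + n)) := by
  induction n with
  | zero =>
    intro j
    have hj := tau_pos j
    refine ⟨by unfold meanSplit; infer_instance, ?_⟩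
    unfold meanSplit
    refine (ae_dirac_iff measurableSet_Icc).2 ?_
    rw [nu_mean]
    exact ⟨by positivity, le_rfl⟩
  | succ n ih =>
    intro j
    have hj := tau_pos j
    rw [meanSplit_nu_succ]
    obtain ⟨h1, h2⟩ := ih (j + 1)
    obtain ⟨h3, h4⟩ := meanSplit_supp _ _ n (u j) inferInstance (u_supp j)
    refine ⟨⟨?_⟩, ae_add_measure_iff.2 ⟨Measure.ae_smul_measure ?_ _,
      Measure.ae_smul_measure ?_ _⟩⟩
    · rw [Measure.add_apply, Measure.smul_apply, Measure.smul_apply, measure_univ, measure_univ,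
        smul_eq_mul, smul_eq_mul, mul_one, mul_one, ← measure_union _ measurableSet_Ici,
        Iio_union_Ici, measure_univ]
      rw [Set.disjoint_left]
      intro x hx hx2
      exact (not_le.2 (mem_Iio.1 hx)) (mem_Ici.1 hx2)
    · filter_upwards [h4] with x hx
      refine ⟨le_trans hj.le hx.1, hx.2.trans ?_⟩
      have h5 : (3 / 2 : ℝ) ^ j ≤ (3 / 2 : ℝ) ^ (j + (n + 1)) :=
        pow_le_pow_right₀ (by norm_num) (by omega)
      nlinarith
    · filter_upwards [h2] with x hx
      rwa [show j + (n + 1) = j + 1 + n by ring]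

/-! ### The distance -/

/-- the cdf difference above the last atom -/
theorem gap_ge (n : ℕ) {t : ℝ} (ht : t ∈ Ico (41 / 28 * (3 / 2 : ℝ) ^ n) (3 / 2 * (3 / 2 : ℝ) ^ n)) :
    (3 / 8 : ℝ) ^ (n + 1) ≤ |(meanSplit n (nu 0)).real (Iic t) - (nu 0).real (Iic t)| := by
  obtain ⟨h1, h2⟩ := meanSplit_nu n 0
  rw [zero_add] at h2
  have e1 : (meanSplit n (nu 0)).real (Iic t) = 1 := by
    have : meanSplit n (nu 0) (Iic t) = 1 := by
      rw [prob_compl_eq_zero_iff measurableSet_Iic |>.symm]
      refine measure_mono_null ?_ h2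
      intro x hx hx2
      exact hx (le_trans hx2.2 ht.1)
    simp [Measure.real, this]
  have e2 : (nu 0).real (Iic t) ≤ 1 - (3 / 8 : ℝ) ^ (n + 1) := by
    have h3 : nu 0 (Iic t) ≤ ∑ k ∈ Finset.range (n + 1), ENNReal.ofReal (wt k) := by
      unfold nu
      rw [Measure.sum_apply _ measurableSet_Iic]
      have h5 : ∀ k ∉ Finset.range (n + 1), (ENNReal.ofReal (wt k) • u (k + 0)) (Iic t) = 0 := by
        intro k hk
        rw [Finset.mem_range, not_lt] at hk
        rw [Measure.smul_apply, smul_eq_mul]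
        have : u (k + 0) (Iic t) = 0 := by
          refine measure_mono_null ?_ (u_supp (k + 0))
          intro x hx hx2
          have h6 := hx2.1
          have h7 : (3 / 2 : ℝ) ^ (n + 1) ≤ (3 / 2 : ℝ) ^ (k + 0) :=
            pow_le_pow_right₀ (by norm_num) (by omega)
          rw [pow_succ] at h7
          have h8 : x ≤ t := hx
          have h9 := ht.2
          linarith
        rw [this, mul_zero]
      rw [tsum_eq_sum h5]
      refine Finset.sum_le_sum fun k _ => ?_
      rw [Measure.smul_apply, smul_eq_mul]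
      exact mul_le_of_le_one_right (by simp) prob_le_one
    rw [← ENNReal.ofReal_sum_of_nonneg (fun k _ => (wt_pos k).le)] at h3
    have h4 : ∑ k ∈ Finset.range (n + 1), wt k = 1 - (3 / 8 : ℝ) ^ (n + 1) := by
      unfold wt
      rw [← Finset.mul_sum, geom_sum_eq (by norm_num)]
      ring
    rw [h4] at h3
    have h5 : (0 : ℝ) ≤ 1 - (3 / 8 : ℝ) ^ (n + 1) := by
      have : (3 / 8 : ℝ) ^ (n + 1) ≤ 1 := pow_le_one₀ (by norm_num) (by norm_num)
      linarith
    unfold Measure.real
    exact ENNReal.toReal_le_of_le_ofReal h5 h3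
  rw [e1, abs_of_nonneg]
  · linarith
  · have : (0 : ℝ) < (3 / 8 : ℝ) ^ (n + 1) := by positivity
    linarith

/-- the constant in the lower bound -/
theorem W1_ge (n : ℕ) :
    ENNReal.ofReal (3 / 224 * (9 / 16 : ℝ) ^ n) ≤ W1 (meanSplit n (nu 0)) (nu 0) := by
  have hn := tau_pos n
  unfold W1
  calc ENNReal.ofReal (3 / 224 * (9 / 16 : ℝ) ^ n)
      = ENNReal.ofReal ((3 / 8 : ℝ) ^ (n + 1)) *
        volume (Ico (41 / 28 * (3 / 2 : ℝ) ^ n) (3 / 2 * (3 / 2 : ℝ) ^ n)) := by
        rw [Real.volume_Ico, ← ENNReal.ofReal_mul (by positivity)]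
        congr 1
        have : (9 / 16 : ℝ) ^ n = (3 / 8 : ℝ) ^ n * (3 / 2 : ℝ) ^ n := by
          rw [← mul_pow]; norm_num
        rw [this, pow_succ]
        ring
    _ = ∫⁻ t in Ico (41 / 28 * (3 / 2 : ℝ) ^ n) (3 / 2 * (3 / 2 : ℝ) ^ n),
          ENNReal.ofReal ((3 / 8 : ℝ) ^ (n + 1)) := by rw [setLIntegral_const]
    _ ≤ ∫⁻ t in Ico (41 / 28 * (3 / 2 : ℝ) ^ n) (3 / 2 * (3 / 2 : ℝ) ^ n),
          ENNReal.ofReal |(meanSplit n (nu 0)).real (Iic t) - (nu 0).real (Iic t)| :=
        setLIntegral_mono' measurableSet_Ico fun t ht => ENNReal.ofReal_le_ofReal (gap_ge n ht)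
    _ ≤ _ := setLIntegral_le_lintegral _ _

theorem W1_finite (n : ℕ) : W1 (meanSplit n (nu 0)) (nu 0) ≠ ⊤ := by
  obtain ⟨h1, h2⟩ := meanSplit_nu n 0
  rw [zero_add] at h2
  set B := 41 / 28 * (3 / 2 : ℝ) ^ n with hB
  have hBpos : 0 < B := by positivity
  have hnn : ∀ᵐ x ∂(nu 0), 0 ≤ x := nu_ae 0 _ fun k =>
    (u_supp (k + 0)).mono fun x hx => le_trans (tau_pos _).le hx.1
  have key : ∀ t : ℝ, ENNReal.ofReal |(meanSplit n (nu 0)).real (Iic t) - (nu 0).real (Iic t)| ≤
      (Icc 0 B).indicator (fun _ => (1 : ℝ≥0∞)) t +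
      (Ioi 0).indicator (fun t => nu 0 {a | t < a}) t := by
    intro t
    have hr1 : (meanSplit n (nu 0)).real (Iic t) ≤ 1 := measureReal_le_one
    have hr2 : (nu 0).real (Iic t) ≤ 1 := measureReal_le_one
    have hr3 : 0 ≤ (meanSplit n (nu 0)).real (Iic t) := measureReal_nonneg
    have hr4 : 0 ≤ (nu 0).real (Iic t) := measureReal_nonneg
    by_cases ht0 : t < 0
    · have e1 : (meanSplit n (nu 0)).real (Iic t) = 0 := by
        have : meanSplit n (nu 0) (Iic t) = 0 := by
          refine measure_mono_null ?_ h2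
          intro x hx hx2
          have h8 : x ≤ t := hx
          linarith [hx2.1]
        simp [Measure.real, this]
      have e2 : (nu 0).real (Iic t) = 0 := by
        have : nu 0 (Iic t) = 0 := by
          refine measure_mono_null ?_ hnn
          intro x hx hx2
          have h8 : x ≤ t := hx
          have h9 : 0 ≤ x := hx2
          linarith
        simp [Measure.real, this]
      rw [e1, e2]
      simp
    · rw [not_lt] at ht0
      by_cases htB : t ≤ B
      · have : t ∈ Icc 0 B := ⟨ht0, htB⟩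
        rw [indicator_of_mem this]
        refine le_trans ?_ le_self_add
        rw [← ENNReal.ofReal_one]
        refine ENNReal.ofReal_le_ofReal ?_
        rw [abs_le]
        constructor <;> linarith
      · rw [not_le] at htB
        have ht : t ∈ Ioi (0 : ℝ) := lt_trans hBpos htB
        rw [indicator_of_mem ht]
        refine le_trans ?_ le_add_self
        have e1 : (meanSplit n (nu 0)).real (Iic t) = 1 := by
          have : meanSplit n (nu 0) (Iic t) = 1 := by
            rw [prob_compl_eq_zero_iff measurableSet_Iic |>.symm]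
            refine measure_mono_null ?_ h2
            intro x hx hx2
            exact hx (le_trans hx2.2 htB.le)
          simp [Measure.real, this]
        have e2 : (nu 0).real (Iic t) = 1 - (nu 0).real {a | t < a} := by
          have h3 := prob_compl_eq_one_sub₀ (μ := nu 0) (s := Iic t) measurableSet_Iic.nullMeasurableSet
          have h4 : {a : ℝ | t < a} = (Iic t)ᶜ := by ext x; simp
          rw [h4, measureReal_compl measurableSet_Iic]
          simp
        rw [e1, e2, sub_sub_cancel, abs_of_nonneg measureReal_nonneg]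
        unfold Measure.real
        rw [ENNReal.ofReal_toReal (measure_ne_top _ _)]
  have hint := (nu_integrable 0)
  have hfin : ∫⁻ x, ENNReal.ofReal x ∂(nu 0) < ⊤ := hint.lintegral_lt_top
  rw [lintegral_eq_lintegral_meas_lt (nu 0) hnn measurable_id'.aemeasurable] at hfin
  unfold W1
  refine ne_top_of_le_ne_top ?_ (lintegral_mono key)
  rw [lintegral_add_left (measurable_const.indicator measurableSet_Icc),
    lintegral_indicator measurableSet_Icc, lintegral_indicator measurableSet_Ioi]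
  refine ENNReal.add_ne_top.2 ⟨?_, hfin.ne⟩
  simp

/-- **Q1 is false**: there is an absolutely continuous probability law with finite second moment
for which `limsup (1/n) log W₁(μ⁽ⁿ⁾, μ)` is at least `log (9/16) > - log 2`. -/
theorem result : ∃ μ : Measure ℝ, IsProbabilityMeasure μ ∧ μ ≪ volume ∧
    Integrable (fun x : ℝ => x ^ 2) μ ∧ (∀ n, W1 (meanSplit n μ) μ ≠ ⊤) ∧
    ((-Real.log 2 : ℝ) : EReal) <
      liminf (fun n : ℕ => ((1 / (n : ℝ) * Real.log (W1 (meanSplit n μ) μ).toReal : ℝ) : EReal))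
        atTop ∧
    limsup (fun n : ℕ => ((1 / (n : ℝ) * Real.log (W1 (meanSplit n μ) μ).toReal : ℝ) : EReal))
        atTop ≠ ((-Real.log 2 : ℝ) : EReal) := by
  have hlow : ((-Real.log 2 : ℝ) : EReal) <
      liminf (fun n : ℕ => ((1 / (n : ℝ) *
        Real.log (W1 (meanSplit n (nu 0)) (nu 0)).toReal : ℝ) : EReal)) atTop := by
    have hlog : -Real.log 2 < Real.log (9 / 16) := by
      rw [← Real.log_inv]
      exact Real.log_lt_log (by norm_num) (by norm_num)
    have hT : Tendsto (fun n : ℕ => ((1 / (n : ℝ) * Real.log (3 / 224) + Real.log (9 / 16) : ℝ) :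
        EReal)) atTop (𝓝 ((Real.log (9 / 16) : ℝ) : EReal)) := by
      refine (continuous_coe_real_ereal.tendsto _).comp ?_
      have h := (tendsto_one_div_atTop_nhds_zero_nat (𝕜 := ℝ)).mul_const (Real.log (3 / 224))
      have h2 := h.add_const (Real.log (9 / 16))
      simpa using h2
    refine lt_of_lt_of_le (EReal.coe_lt_coe_iff.2 hlog) ?_
    rw [← hT.liminf_eq]
    refine liminf_le_liminf ?_
    filter_upwards [eventually_ge_atTop 1] with n hn
    have hn' : (0 : ℝ) < n := by exact_mod_cast hn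
    refine EReal.coe_le_coe_iff.2 ?_
    have h1 : 3 / 224 * (9 / 16 : ℝ) ^ n ≤ (W1 (meanSplit n (nu 0)) (nu 0)).toReal := by
      have h2 := ENNReal.toReal_mono (W1_finite n) (W1_ge n)
      rwa [ENNReal.toReal_ofReal (by positivity)] at h2
    have h2 := Real.log_le_log (by positivity) h1
    rw [Real.log_mul (by norm_num) (by positivity), Real.log_pow] at h2
    have h3 := mul_le_mul_of_nonneg_left h2 (show 0 ≤ 1 / (n : ℝ) by positivity)
    refine le_trans (le_of_eq ?_) h3
    field_simp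
  refine ⟨nu 0, inferInstance, nu_ac 0, nu_second 0, W1_finite, hlow, ?_⟩
  exact (lt_of_lt_of_le hlow (liminf_le_limsup)).ne'

end Pool.Agent.Results.MP_a33f4b_pr.SlowRate
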